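import Pool.Agent.helper57.PP.Spec

/-!
# Row PROJ: the vertices of the projective plane and their representatives
-/

set_option autoImplicit false

namespace Pool.Agent.helper57.PP

open Finset

theorem PROJ_zmod (a b : ZMod 2) : a = b ∨ a = b + 1 := by
  revert a b
  decide

theorem PROJ_eq_or {V : Type} {x y : V × ZMod 2} (h : x.1 = y.1) : x = y ∨ x = sg y := by
  rcases PROJ_zmod x.2 y.2 with h' | h'
  · exact Or.inl (Prod.ext h h')
  · exact Or.inr (Prod.ext h h')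

theorem PROJ (h1 : HS_stmt) (h2 : ISO_stmt) : PROJ_stmt := by
  classical
  intro V _ _ F w m p A hG hgeo hA
  obtain ⟨-, -, -, hs4, hs5, -, -⟩ := h1 (V × ZMod 2) (lift F w) sg m p A hG hgeo hA
  obtain ⟨-, -, hinj, -, -, hred⟩ := h2 (V × ZMod 2) (lift F w) sg m p hG hgeo
  have hm : 3 ≤ m := hgeo.m3
  have hper : ∀ i, (p (i + m)).1 = (p i).1 := by
    intro i
    rw [hgeo.per i]
    rfl
  have F1 : ∀ i < m, ∀ j < m, (p i).1 = (p j).1 → i = j := by
    intro i hi j hj h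
    rcases PROJ_eq_or h with h' | h'
    · exact hinj i (by omega) j (by omega) h'
    · rw [← hgeo.per j] at h'
      have := hinj i (by omega) (j + m) (by omega) h'
      omega
  have F2 : ∀ x : V × ZMod 2, (∀ i, x ≠ p i) → ∀ i, x.1 ≠ (p i).1 := by
    intro x hx i h
    rcases PROJ_eq_or h with h' | h'
    · exact hx i h'
    · rw [← hgeo.per i] at h'
      exact hx (i + m) h'
  have F3 : ∀ i, ∃ j < m, (p i).1 = (p j).1 := by
    intro i
    obtain ⟨j, hj, hj'⟩ := hred i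
    by_cases h : j < m
    · exact ⟨j, h, by rw [hj']⟩
    · refine ⟨j - m, by omega, ?_⟩
      rw [hj', ← hper (j - m)]
      have : j - m + m = j := by omega
      rw [this]
  obtain ⟨Z, hZ⟩ : ∃ Z : Finset V, ∀ v, v ∈ Z ↔ ∃ i, 1 ≤ i ∧ i < m ∧ (p i).1 = v := by
    refine ⟨(Finset.Ico 1 m).image fun i => (p i).1, fun v => ?_⟩
    simp only [mem_image, mem_Ico, and_assoc]
  have hix : ∀ v, ∃ i : ℕ, v ∈ Z → 1 ≤ i ∧ i < m ∧ (p i).1 = v := by
    intro v
    by_cases hv : v ∈ Z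
    · obtain ⟨i, hi⟩ := (hZ v).1 hv
      exact ⟨i, fun _ => hi⟩
    · exact ⟨0, fun h => absurd h hv⟩
  choose ix hix using hix
  have hm0 : (p 0).1 ∉ Z := by
    intro h
    obtain ⟨i, h1, h2, h3⟩ := (hZ _).1 h
    have := F1 i h2 0 (by omega) h3
    omega
  -- the copy in the half
  have hcp : ∀ v, ∃ x : V × ZMod 2, x.1 = v ∧ (v ≠ (p 0).1 → v ∉ Z → x ∈ vs A ∧
      (∀ i, x ≠ p i) ∧ ∀ y ∈ vs A, y.1 = v → y = x) := by
    intro v
    by_cases hv : v ≠ (p 0).1 ∧ v ∉ Z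
    · have key : ∀ x : V × ZMod 2, x.1 = v → ∀ i, x ≠ p i := by
        intro x hx i h
        obtain ⟨j, hj, hj'⟩ := F3 i
        have h3 : v = (p j).1 := by rw [← hj', ← h, hx]
        by_cases hj0 : j = 0
        · apply hv.1
          rw [h3, hj0]
        · exact hv.2 ((hZ v).2 ⟨j, by omega, hj, h3.symm⟩)
      have key2 : ∀ x ∈ vs A, x.1 = v → ∀ y ∈ vs A, y.1 = v → y = x := by
        intro x hx hx1 y hy hy1
        rcases PROJ_eq_or (show y.1 = x.1 by rw [hy1, hx1]) with h | h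
        · exact h
        · exfalso
          rw [h] at hy
          exact hs4 x hx (key x hx1) hy
      rcases hs5 (v, 0) with h | h
      · exact ⟨(v, 0), rfl, fun _ _ => ⟨h, key _ rfl, key2 _ h rfl⟩⟩
      · exact ⟨sg (v, 0), rfl, fun _ _ => ⟨h, key _ rfl, key2 _ h rfl⟩⟩
    · refine ⟨(v, 0), rfl, fun h3 h4 => absurd ⟨h3, h4⟩ hv⟩
  choose cp hcp1 hcp2 using hcp
  refine ⟨Z, ix, fun v => if v ∈ Z then p (m + ix v) else cp v,
    fun v => if v ∈ Z then p (ix v) else cp v, ⟨?_, ?_, ?_, ?_, ?_, hm0⟩⟩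
  · intro v hv
    obtain ⟨a1, a2, a3⟩ := hix v hv
    exact ⟨a1, a2, if_pos hv, if_pos hv⟩
  · intro v hv0 hv
    obtain ⟨a1, a2, a3⟩ := hcp2 v hv0 hv
    simp only [if_neg hv]
    exact ⟨trivial, a1, a2⟩
  · intro v hv0
    by_cases hv : v ∈ Z
    · obtain ⟨a1, a2, a3⟩ := hix v hv
      simp only [if_pos hv]
      refine ⟨?_, a3⟩
      rw [Nat.add_comm, hper, a3]
    · simp only [if_neg hv]
      exact ⟨hcp1 v, hcp1 v⟩
  · intro i hi1 hi2
    have hmem : (p i).1 ∈ Z := (hZ _).2 ⟨i, hi1, hi2, rfl⟩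
    obtain ⟨a1, a2, a3⟩ := hix _ hmem
    refine ⟨?_, hmem, F1 _ a2 _ hi2 a3⟩
    intro h
    have := F1 i hi2 0 (by omega) h
    omega
  · intro x hx hxp
    have b1 : x.1 ≠ (p 0).1 := F2 x hxp 0
    have b2 : x.1 ∉ Z := by
      intro h
      obtain ⟨i, -, -, h3⟩ := (hZ _).1 h
      exact F2 x hxp i h3.symm
    refine ⟨b1, b2, ?_⟩
    simp only [if_neg b2]
    exact ((hcp2 x.1 b1 b2).2.2 x hx rfl).symm

end Pool.Agent.helper57.PP
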