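import Pool.Agent.helper57.PP.Spec

/-!
# Row WALK: a graph with the degrees one at `a` and `b` and zero or two elsewhere contains a path
-/

set_option autoImplicit false

namespace Pool.Agent.helper57.PP

open Finset

theorem WALK_unique {W : Type} [DecidableEq W] {L : Finset (Finset W)} {v : W} {e e' : Finset W}
    (h : dg L v = 1) (he : e ∈ L) (hv : v ∈ e) (he' : e' ∈ L) (hv' : v ∈ e') : e' = e := by
  unfold dg at h
  obtain ⟨x, hx⟩ := Finset.card_eq_one.1 h
  have h1 : e ∈ L.filter (fun e => v ∈ e) := mem_filter.2 ⟨he, hv⟩
  have h2 : e' ∈ L.filter (fun e => v ∈ e) := mem_filter.2 ⟨he', hv'⟩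
  rw [hx, mem_singleton] at h1 h2
  rw [h1, h2]

theorem WALK_edge {W : Type} [DecidableEq W] {L : Finset (Finset W)} {a : W}
    (hL : ∀ e ∈ L, e.card = 2) (h : dg L a = 1) : ∃ c, c ≠ a ∧ ({a, c} : Finset W) ∈ L := by
  unfold dg at h
  obtain ⟨e, he⟩ := Finset.card_eq_one.1 h
  have h1 : e ∈ L.filter (fun e => a ∈ e) := by rw [he]; exact mem_singleton_self e
  obtain ⟨h2, h3⟩ := mem_filter.1 h1
  obtain ⟨x, y, hxy, rfl⟩ := Finset.card_eq_two.1 (hL e h2)
  simp only [mem_insert, mem_singleton] at h3
  rcases h3 with rfl | rfl
  · exact ⟨y, hxy.symm, h2⟩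
  · exact ⟨x, hxy, by rwa [Finset.pair_comm]⟩

theorem WALK_erase_of_mem {W : Type} [DecidableEq W] {L : Finset (Finset W)} {v : W}
    {e : Finset W} (he : e ∈ L) (hv : v ∈ e) : dg (L.erase e) v + 1 = dg L v := by
  unfold dg
  rw [Finset.filter_erase]
  exact Finset.card_erase_add_one (mem_filter.2 ⟨he, hv⟩)

theorem WALK_erase_of_notMem {W : Type} [DecidableEq W] {L : Finset (Finset W)} {v : W}
    {e : Finset W} (hv : v ∉ e) : dg (L.erase e) v = dg L v := by
  unfold dg
  rw [Finset.filter_erase, Finset.erase_eq_of_notMem]
  exact fun h => hv (mem_filter.1 h).2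

theorem WALK_pos {W : Type} [DecidableEq W] {L : Finset (Finset W)} {v : W}
    {e : Finset W} (he : e ∈ L) (hv : v ∈ e) : dg L v ≠ 0 := by
  unfold dg
  exact Finset.card_ne_zero_of_mem (mem_filter.2 ⟨he, hv⟩)

theorem WALK_aux (W : Type) [DecidableEq W] (b : W) : ∀ (n : ℕ) (L : Finset (Finset W)) (a : W),
    L.card = n → (∀ e ∈ L, e.card = 2) → a ≠ b → dg L a = 1 → dg L b = 1 →
    (∀ v, v ≠ a → v ≠ b → dg L v = 0 ∨ dg L v = 2) →
    ∃ mid : List W, (pth a mid b).Nodup ∧ pe (pth a mid b) ⊆ L ∧
      ∀ v ∈ pth a mid b, ∀ e ∈ L, v ∈ e → e ∈ pe (pth a mid b) := by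
  intro n
  induction n with
  | zero =>
    intro L a hn _ _ ha
    rw [Finset.card_eq_zero] at hn
    rw [hn] at ha
    simp [dg] at ha
  | succ n ih =>
    intro L a hn hL hab ha hb hd
    obtain ⟨c, hca, hc⟩ := WALK_edge hL ha
    by_cases hcb : c = b
    · subst hcb
      refine ⟨[], ?_, ?_, ?_⟩
      · simp [pth, hab]
      · intro e he
        simp only [pth, List.nil_append, pe_cons_cons, pe_singleton, mem_insert, notMem_empty,
          or_false] at he
        rw [he]
        exact hc
      · intro v hv e he hve
        simp only [pth, List.nil_append, List.mem_cons, List.not_mem_nil, or_false] at hv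
        simp only [pth, List.nil_append, pe_cons_cons, pe_singleton, mem_insert, notMem_empty,
          or_false]
        rcases hv with rfl | rfl
        · exact WALK_unique ha hc (by simp) he hve
        · exact WALK_unique hb hc (by simp) he hve
    · have hcL : c ∈ ({a, c} : Finset W) := by simp
      have haL : a ∈ ({a, c} : Finset W) := by simp
      have hbL : b ∉ ({a, c} : Finset W) := by
        simp only [mem_insert, mem_singleton, not_or]
        exact ⟨hab.symm, fun h => hcb h.symm⟩
      have hdc : dg L c = 2 := by
        rcases hd c hca hcb with h | h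
        · exact absurd h (WALK_pos hc hcL)
        · exact h
      have ha' : dg (L.erase {a, c}) a = 0 := by
        have := WALK_erase_of_mem hc haL
        omega
      have hc' : dg (L.erase {a, c}) c = 1 := by
        have := WALK_erase_of_mem hc hcL
        omega
      have hb' : dg (L.erase {a, c}) b = 1 := by rw [WALK_erase_of_notMem hbL, hb]
      have hcard : (L.erase {a, c}).card = n := by
        have := Finset.card_erase_add_one hc
        omega
      obtain ⟨mid, h1, h2, h3⟩ := ih (L.erase {a, c}) c hcard
        (fun e he => hL e (Finset.mem_of_mem_erase he)) hcb hc' hb' (by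
          intro v hvc hvb
          by_cases hva : v = a
          · left
            rw [hva, ha']
          · rw [WALK_erase_of_notMem (by simp [hva, hvc])]
            exact hd v hva hvb)
      have hna : a ∉ pth c mid b := by
        intro h
        obtain ⟨e, he, hae⟩ := exists_pe_of_mem h
        exact WALK_pos (h2 he) hae ha'
      have hpe : pe (pth a (c :: mid) b) = insert {a, c} (pe (pth c mid b)) := rfl
      refine ⟨c :: mid, ?_, ?_, ?_⟩
      · have h4 : pth a (c :: mid) b = a :: pth c mid b := rfl
        rw [h4, List.nodup_cons]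
        exact ⟨hna, h1⟩
      · rw [hpe]
        intro e he
        rw [mem_insert] at he
        rcases he with rfl | he
        · exact hc
        · exact Finset.mem_of_mem_erase (h2 he)
      · intro v hv e he hve
        rw [hpe, mem_insert]
        by_cases hee : e = {a, c}
        · exact Or.inl hee
        · right
          have h4 : pth a (c :: mid) b = a :: pth c mid b := rfl
          rw [h4, List.mem_cons] at hv
          rcases hv with rfl | hv
          · exact absurd (WALK_unique ha hc haL he hve) hee
          · exact h3 v hv e (Finset.mem_erase.2 ⟨hee, he⟩) hve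

theorem WALK : WALK_stmt := by
  intro W _ L a b hL hab ha hb hd
  exact WALK_aux W b L.card L a rfl hL hab ha hb hd

end Pool.Agent.helper57.PP
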